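import Mathlib

/-!
# CR, K2a: the Poisson kernel on a window
-/

set_option autoImplicit false

namespace Pool.Agent.Helper16.CR

open Complex Filter Topology MeasureTheory Set Metric

theorem nsq_aux (a b : ℝ) : ‖(a : ℂ) + (b : ℂ) * I‖ ^ 2 = a ^ 2 + b ^ 2 := by
  rw [← Complex.normSq_eq_norm_sq, Complex.normSq_add_mul_I]

/-- K2a. Poisson kernel on a window (Mathlib only) -/
theorem poisson_window (γ ε : ℝ) (hε : 0 < ε) (hεγ : ε < |γ|) :
    Tendsto (fun σ : ℝ => σ * ∫ τ in Icc (γ - ε) (γ + ε),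
      (‖(σ : ℂ) + (τ : ℂ) * I - (γ : ℂ) * I‖ ^ 2)⁻¹ * (‖(σ : ℂ) + (τ : ℂ) * I‖ ^ 2)⁻¹) (𝓝[>] 0)
      (𝓝 (Real.pi / γ ^ 2)) := by
  have hγ0 : 0 < |γ| - ε := by linarith
  have hγ : γ ≠ 0 := by
    intro h
    rw [h, abs_zero] at hεγ
    linarith
  let f : ℝ → ℝ → ℝ := fun σ u => (Icc (γ - ε) (γ + ε)).indicator (fun _ => (1 : ℝ)) (γ + σ * u) *
    ((1 + u ^ 2)⁻¹ * (σ ^ 2 + (γ + σ * u) ^ 2)⁻¹)
  have key : ∀ σ : ℝ, 0 < σ → σ * ∫ τ in Icc (γ - ε) (γ + ε),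
      (‖(σ : ℂ) + (τ : ℂ) * I - (γ : ℂ) * I‖ ^ 2)⁻¹ * (‖(σ : ℂ) + (τ : ℂ) * I‖ ^ 2)⁻¹ = ∫ u, f σ u := by
    intro σ hσ
    have e1 : ∀ τ : ℝ, (‖(σ : ℂ) + (τ : ℂ) * I - (γ : ℂ) * I‖ ^ 2)⁻¹ * (‖(σ : ℂ) + (τ : ℂ) * I‖ ^ 2)⁻¹ =
        (σ ^ 2 + (τ - γ) ^ 2)⁻¹ * (σ ^ 2 + τ ^ 2)⁻¹ := by
      intro τ
      have : (σ : ℂ) + (τ : ℂ) * I - (γ : ℂ) * I = (σ : ℂ) + ((τ - γ : ℝ) : ℂ) * I := by
        push_cast
        ring
      rw [this, nsq_aux, nsq_aux]
    simp_rw [e1]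
    rw [← integral_indicator measurableSet_Icc]
    let g : ℝ → ℝ := (Icc (γ - ε) (γ + ε)).indicator (fun τ => (σ ^ 2 + (τ - γ) ^ 2)⁻¹ * (σ ^ 2 + τ ^ 2)⁻¹)
    have e2 : ∫ u, g (γ + σ * u) = σ⁻¹ * ∫ τ, g τ := by
      have h1 := Measure.integral_comp_mul_left (fun x => g (γ + x)) σ
      have h2 : ∫ x, g (γ + x) = ∫ x, g x := integral_add_left_eq_self g γ
      rw [h1, h2, abs_of_pos (inv_pos.mpr hσ), smul_eq_mul]
    have e3 : ∀ u, f σ u = σ ^ 2 * g (γ + σ * u) := by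
      intro u
      simp only [f, g, indicator_apply]
      split_ifs with h
      · have h1 : γ + σ * u - γ = σ * u := by ring
        have h2 : σ ^ 2 + (σ * u) ^ 2 = σ ^ 2 * (1 + u ^ 2) := by ring
        rw [h1, h2, one_mul, mul_inv, ← mul_assoc, ← mul_assoc, mul_inv_cancel₀ (by positivity), one_mul]
      · simp
    have e4 : ∫ u, f σ u = ∫ u, σ ^ 2 * g (γ + σ * u) := integral_congr_ae (Eventually.of_forall e3)
    rw [e4, integral_const_mul, e2]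
    have : σ ^ 2 * (σ⁻¹ * ∫ τ, g τ) = σ * ∫ τ, g τ := by
      field_simp
    rw [this]
  have lim : Tendsto (fun σ => ∫ u, f σ u) (𝓝[>] 0) (𝓝 (∫ u : ℝ, (1 + u ^ 2)⁻¹ * (γ ^ 2)⁻¹)) := by
    refine tendsto_integral_filter_of_dominated_convergence (fun u => (1 + u ^ 2)⁻¹ * ((|γ| - ε) ^ 2)⁻¹) ?_ ?_ ?_ ?_
    · refine Eventually.of_forall fun σ => Measurable.aestronglyMeasurable ?_
      have h1 : Measurable fun u : ℝ => γ + σ * u := by fun_prop
      refine Measurable.mul ?_ ?_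
      · exact (measurable_const.indicator measurableSet_Icc).comp h1
      · fun_prop
    · refine Eventually.of_forall fun σ => Eventually.of_forall fun u => ?_
      have hu : (0 : ℝ) ≤ (1 + u ^ 2)⁻¹ := by positivity
      simp only [f, indicator_apply]
      split_ifs with h
      · rw [one_mul, Real.norm_of_nonneg (by positivity)]
        refine mul_le_mul_of_nonneg_left ?_ hu
        apply inv_anti₀ (by positivity)
        have h2 : |γ + σ * u - γ| ≤ ε := by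
          rw [abs_le]
          constructor
          · linarith [h.1]
          · linarith [h.2]
        have h3 : |γ| - ε ≤ |γ + σ * u| := by
          have := abs_sub_abs_le_abs_sub γ (γ + σ * u)
          rw [abs_sub_comm] at this
          linarith
        have h4 : (|γ| - ε) ^ 2 ≤ |γ + σ * u| ^ 2 := pow_le_pow_left₀ hγ0.le h3 2
        rw [sq_abs] at h4
        nlinarith [sq_nonneg σ]
      · rw [zero_mul, norm_zero]
        positivity
    · exact integrable_inv_one_add_sq.mul_const _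
    · refine Eventually.of_forall fun u => ?_
      have c1 : Tendsto (fun σ : ℝ => γ + σ * u) (𝓝[>] 0) (𝓝 γ) := by
        have : Tendsto (fun σ : ℝ => γ + σ * u) (𝓝 0) (𝓝 (γ + 0 * u)) :=
          Continuous.tendsto (by fun_prop) 0
        rw [zero_mul, add_zero] at this
        exact this.mono_left nhdsWithin_le_nhds
      have c2 : ∀ᶠ σ : ℝ in 𝓝[>] 0, (Icc (γ - ε) (γ + ε)).indicator (fun _ => (1 : ℝ)) (γ + σ * u) = 1 := by
        have : Icc (γ - ε) (γ + ε) ∈ 𝓝 γ := Icc_mem_nhds (by linarith) (by linarith)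
        filter_upwards [c1 this] with σ hσ
        have hσ' : γ + σ * u ∈ Icc (γ - ε) (γ + ε) := hσ
        exact indicator_of_mem hσ' (fun _ => (1 : ℝ))
      have c3 : Tendsto (fun σ : ℝ => (σ ^ 2 + (γ + σ * u) ^ 2)⁻¹) (𝓝[>] 0) (𝓝 (γ ^ 2)⁻¹) := by
        have h1 : Tendsto (fun σ : ℝ => σ ^ 2) (𝓝[>] 0) (𝓝 0) := by
          have : Tendsto (fun σ : ℝ => σ ^ 2) (𝓝 0) (𝓝 (0 ^ 2)) := Continuous.tendsto (by fun_prop) 0
          rw [zero_pow two_ne_zero] at this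
          exact this.mono_left nhdsWithin_le_nhds
        have h2 := (h1.add (c1.pow 2)).inv₀ (by simpa using hγ)
        simpa using h2
      have c4 : Tendsto (fun σ : ℝ => (1 : ℝ) * ((1 + u ^ 2)⁻¹ * (σ ^ 2 + (γ + σ * u) ^ 2)⁻¹)) (𝓝[>] 0)
          (𝓝 (1 * ((1 + u ^ 2)⁻¹ * (γ ^ 2)⁻¹))) := (c3.const_mul _).const_mul _
      rw [one_mul] at c4
      refine c4.congr' ?_
      filter_upwards [c2] with σ hσ
      simp only [f]
      rw [hσ]
  have val : ∫ u : ℝ, (1 + u ^ 2)⁻¹ * (γ ^ 2)⁻¹ = Real.pi / γ ^ 2 := by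
    rw [integral_mul_const, integral_univ_inv_one_add_sq, div_eq_mul_inv]
  rw [← val]
  refine lim.congr' ?_
  filter_upwards [self_mem_nhdsWithin] with σ hσ
  exact (key σ hσ).symm

end Pool.Agent.Helper16.CR
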